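import Pool.Agent.Helper69.TPF.St2

/-! Project TPF, module BAS. -/

set_option autoImplicit false

namespace Pool.Agent.Helper13.TPF

open Pool.Agent.Helper69.TPF Pool.Agent.Helper6.TS

theorem cBAS (gal : St_GAL) : St_BAS := by
  intro g m t D
  choose v0 h1 h2 using fun s : Fin g => D.hex (tgt t 1 s) (tgt t 2 s)
  let s1 : FreeGroup {i // t i = 1} →* FreeGroup (Fin g) := FreeGroup.lift fun i => v0 i.1
  let s2 : FreeGroup {i // t i = 2} →* FreeGroup (Fin g) := FreeGroup.lift fun i => v0 i.1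
  have a1 : D.a01.comp s1 = MonoidHom.id _ := by
    ext ⟨i, hi⟩
    simp [s1, h1, tgt, hi]
  have a2 : D.a02.comp s1 = 1 := by
    ext ⟨i, hi⟩
    have hne : ¬ t i = 2 := by rw [hi]; decide
    simp [s1, h2, tgt, hne]
  have b1 : D.a01.comp s2 = 1 := by
    ext ⟨i, hi⟩
    have hne : ¬ t i = 1 := by rw [hi]; decide
    simp [s2, h1, tgt, hne]
  have b2 : D.a02.comp s2 = MonoidHom.id _ := by
    ext ⟨i, hi⟩
    simp [s2, h2, tgt, hi]
  have a1' : ∀ p, D.a01 (s1 p) = p := fun p => DFunLike.congr_fun a1 p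
  have a2' : ∀ p, D.a02 (s1 p) = 1 := fun p => DFunLike.congr_fun a2 p
  have b1' : ∀ p, D.a01 (s2 p) = 1 := fun p => DFunLike.congr_fun b1 p
  have b2' : ∀ p, D.a02 (s2 p) = p := fun p => DFunLike.congr_fun b2 p
  have hgen : GenMod (D.a01.ker ⊓ D.a02.ker) v0 := by
    apply genMod_of_le
    intro K hK hN
    rw [Subgroup.eq_top_iff']
    intro x
    have k1 : ∀ p, s1 p ∈ K := by
      intro p
      have : s1.range ≤ K := by
        rw [FreeGroup.range_lift_eq_closure, Subgroup.closure_le]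
        rintro _ ⟨i, rfl⟩
        exact hK i.1
      exact this ⟨p, rfl⟩
    have k2 : ∀ p, s2 p ∈ K := by
      intro p
      have : s2.range ≤ K := by
        rw [FreeGroup.range_lift_eq_closure, Subgroup.closure_le]
        rintro _ ⟨i, rfl⟩
        exact hK i.1
      exact this ⟨p, rfl⟩
    have hx : x * (s1 (D.a01 x) * s2 (D.a02 x))⁻¹ ∈ D.a01.ker ⊓ D.a02.ker := by
      constructor
      · show D.a01 _ = 1
        rw [map_mul, map_inv, map_mul, a1', b1', mul_one, mul_inv_cancel]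
      · show D.a02 _ = 1
        rw [map_mul, map_inv, map_mul, a2', b2', one_mul, mul_inv_cancel]
    have := K.mul_mem (hN hx) (K.mul_mem (k1 (D.a01 x)) (k2 (D.a02 x)))
    rwa [inv_mul_cancel_right] at this
  obtain ⟨c, hc, hv⟩ := gal g m (D.a01.ker ⊓ D.a02.ker) v0 (hgen.mono le_sup_left)
  refine ⟨fun i => v0 i * c i, hv, fun s => ⟨?_, ?_⟩⟩
  · rw [map_mul, h1]
    have : D.a01 (c s) = 1 := (hc s).1
    rw [this, mul_one]
  · rw [map_mul, h2]
    have : D.a02 (c s) = 1 := (hc s).2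
    rw [this, mul_one]

end Pool.Agent.Helper13.TPF
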